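import Pool.Agent.W544.PG.Defs6

open Matrix Finset Module

namespace Pool.Agent.W748.PG5

open Pool.Agent.W544.PG

theorem ten : S_ten := by
  intro X Y _ _ U B t hU hB
  classical
  obtain ⟨p, hp⟩ := LinearMap.exists_leftInverse_of_injective U.subtype
    (LinearMap.ker_eq_bot.2 U.injective_subtype)
  let b := Module.finBasis ℚ U
  let f : Fin (Module.finrank ℚ U) → (X → ℚ) →ₗ[ℚ] ℚ := fun j => (b.coord j).comp p
  have hβ : ∀ j, (fun y => f j (fun x => t x y)) ∈ B := by
    intro j
    have h : (fun y => f j (fun x => t x y)) = ∑ x, (f j (Pi.single x 1)) • t x := by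
      funext y
      have h1 : (fun x => t x y) = ∑ x, t x y • (Pi.single x (1 : ℚ) : X → ℚ) := by
        funext x'
        simp [Finset.sum_apply, Pi.single_apply]
      rw [h1, map_sum, Finset.sum_apply]
      refine Finset.sum_congr rfl fun x _ => ?_
      rw [map_smul, smul_eq_mul, Pi.smul_apply, smul_eq_mul, mul_comm]
    rw [h]
    exact Submodule.sum_mem _ fun x _ => Submodule.smul_mem _ _ (hB x)
  have ht : t = ∑ j, fun x y => (b j : X → ℚ) x * f j (fun x => t x y) := by
    funext x y
    rw [Finset.sum_apply, Finset.sum_apply]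
    have h1 : p (fun x => t x y) = ⟨fun x => t x y, hU y⟩ := by
      have := LinearMap.congr_fun hp ⟨fun x => t x y, hU y⟩
      simpa using this
    have h2 : ∑ j, (b.repr (p fun x => t x y)) j • b j = p fun x => t x y := b.sum_repr _
    have h3 : ((∑ j, (b.repr (p fun x => t x y)) j • b j : U) : X → ℚ) x = t x y := by
      rw [h2, h1]
    rw [← h3]
    rw [Submodule.coe_sum, Finset.sum_apply]
    refine Finset.sum_congr rfl fun j _ => ?_
    rw [Submodule.coe_smul, Pi.smul_apply, smul_eq_mul, mul_comm]
    rfl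
  rw [ht]
  exact Submodule.sum_mem _ fun j _ => Submodule.subset_span
    ⟨(b j : X → ℚ), (b j).2, fun y => f j (fun x => t x y), hβ j, rfl⟩

end Pool.Agent.W748.PG5
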